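import Pool.Agent.Helper190H.Eq
import Pool.Agent.Helper190H.Low

/-!
# Hilbert's inequality with the kernel `(x + y) ^ (-1/2)` on `L ^ (4/3)`: the constant `√π` is not
# sharp

`SeriesBound C` and `IntegralBound C` say that (S), resp. (I), holds with the constant `C`.

**Theorem.** The inequalities (S) and (I) hold with the same constants, so `C_S = C_I`; they hold with
the constant `√(15 π) / 4 = 0.968… · √π`, so neither `C_S` nor `C_I` is equal to `√π`; and
`C_S = C_I ≥ 4 - 2 √2 arsinh 1 = 1.507…`.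

## Proof

Let `P = f ^ (4/3)`, `R = g ^ (4/3)` be probability densities on `(0, ∞)`, and let
`κ x y = √x / (π √y (x + y))`; for each `x` this is a probability density in `y` with median `x`.
Then `f(x) g(y) (x + y)^(-1/2) / √π` is the weighted geometric mean `a^(1/2) b^(1/4) c^(1/4)` of the
three probability densities `a = P(x) R(y)`, `b = P(x) κ x y`, `c = R(y) κ y x` on `(0, ∞)²`.
So its integral is at most `√(ρ₁ ρ₂)`, where `ρ₁`, `ρ₂` are the affinities (Hellinger integrals) of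
`a, b` and of `a, c`. The classical bound uses `ρ₁, ρ₂ ≤ 1`. But `a` cannot be close to both `b` and
`c`: let `m` be a median of `P`, let `ε(x) = ± 1` according to the side of `m` and let `s(x, y) = 1`
for `y ≤ x` and `-1` otherwise. Then `(ε(x) - ε(y)) s(x, y) = 1 - ε(x) ε(y)` has the integral `1` with
respect to `a`, while `ε(x) s(x, y)` has the integral `0` with respect to `b` and `ε(y) s(x, y)` has
the integral `0` with respect to `c`. Hence `‖a - b‖₁ + ‖a - c‖₁ ≥ 1`, and as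
`‖a - b‖₁² ≤ 4 (1 - ρ₁²)` this gives `ρ₁ ρ₂ ≤ 15/16`.

The series inequality follows from the integral inequality for step functions. Conversely the
integral inequality for the discretised kernel `(h ⌈x/h⌉ + h ⌈y/h⌉) ^ (-1/2)` follows from the series
inequality and Hölder's inequality on the cells of length `h`, with the same constant; let `h → 0`.
The lower bound is the value of the form at `f = g = (1 + x) ^ (-3/2)`, which has norm `1`.
-/

open MeasureTheory Set Filter Topology NNReal ENNReal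

namespace Pool.Agent.Results.MP_dbfb19_an.NotSharp

open Pool.Agent.Helper190H

/-- The inequality (S) holds with the constant `C`, for all nonnegative sequences `a`, `b` with finite
norms. The sequences are indexed from `0`: `a m` is the term with the number `m + 1`. -/
def SeriesBound (C : ℝ) : Prop :=
  ∀ a b : ℕ → ℝ≥0, (∑' m, (a m : ℝ≥0∞) ^ (4 / 3 : ℝ)) ≠ ∞ → (∑' n, (b n : ℝ≥0∞) ^ (4 / 3 : ℝ)) ≠ ∞ →
    ∑' m : ℕ, ∑' n : ℕ, (a m : ℝ≥0∞) * b n *
        ENNReal.ofReal ((((m : ℝ) + 1) + ((n : ℝ) + 1)) ^ (-(1 / 2) : ℝ)) ≤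
      ENNReal.ofReal C * (∑' m, (a m : ℝ≥0∞) ^ (4 / 3 : ℝ)) ^ (3 / 4 : ℝ) *
        (∑' n, (b n : ℝ≥0∞) ^ (4 / 3 : ℝ)) ^ (3 / 4 : ℝ)

/-- The inequality (I) holds with the constant `C`, for all nonnegative measurable functions `f`, `g`
on `(0, ∞)` with finite norms. -/
def IntegralBound (C : ℝ) : Prop :=
  ∀ f g : ℝ → ℝ≥0, Measurable f → Measurable g →
    ∫⁻ x in Ioi 0, (f x : ℝ≥0∞) ^ (4 / 3 : ℝ) ≠ ∞ → ∫⁻ y in Ioi 0, (g y : ℝ≥0∞) ^ (4 / 3 : ℝ) ≠ ∞ →
    ∫⁻ x in Ioi 0, ∫⁻ y in Ioi 0, (f x : ℝ≥0∞) * g y * ENNReal.ofReal ((x + y) ^ (-(1 / 2) : ℝ)) ≤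
      ENNReal.ofReal C * (∫⁻ x in Ioi 0, (f x : ℝ≥0∞) ^ (4 / 3 : ℝ)) ^ (3 / 4 : ℝ) *
        (∫⁻ y in Ioi 0, (g y : ℝ≥0∞) ^ (4 / 3 : ℝ)) ^ (3 / 4 : ℝ)

theorem series_of_integral {C : ℝ} (hI : IntegralBound C) : SeriesBound C := by
  intro a b ha hb
  refine (series_le a b).trans ?_
  have := hI (stepf a) (stepf b) (measurable_stepf a) (measurable_stepf b)
    (by rw [norm_stepf]; exact ha) (by rw [norm_stepf]; exact hb)
  rw [norm_stepf, norm_stepf] at this
  exact this

theorem integral_of_series' {C : ℝ} (hS : SeriesBound C) : IntegralBound C :=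
  fun _ _ hf hg hF hG => integral_of_series hS hf hg hF hG

theorem lower {C : ℝ} (hI : IntegralBound C) : 4 - 2 * √2 * Real.arsinh 1 ≤ C := by
  have hpos : ∀ᵐ x ∂mu, 0 < x := ae_restrict_mem measurableSet_Ioi
  have htm : Measurable fun x : ℝ => (tf x).toNNReal := by
    unfold tf
    exact ((measurable_id.const_add 1).pow_const _).real_toNNReal
  have htf : ∀ x : ℝ, 0 < x → 0 ≤ tf x := fun x hx => by unfold tf; positivity
  have hn : ∫⁻ x in Ioi 0, (((tf x).toNNReal : ℝ≥0) : ℝ≥0∞) ^ (4 / 3 : ℝ) = 1 := by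
    rw [← tf_norm]
    refine lintegral_congr_ae ?_
    filter_upwards [hpos] with x hx
    rw [← ENNReal.ofReal_rpow_of_nonneg (htf x hx) (by norm_num)]
    rfl
  have h1 := hI _ _ htm htm (by rw [hn]; exact ENNReal.one_ne_top) (by rw [hn]; exact ENNReal.one_ne_top)
  rw [hn, ENNReal.one_rpow, mul_one, mul_one] at h1
  have h2 : ∫⁻ x in Ioi 0, ∫⁻ y in Ioi 0, (((tf x).toNNReal : ℝ≥0) : ℝ≥0∞) *
      (((tf y).toNNReal : ℝ≥0) : ℝ≥0∞) * ENNReal.ofReal ((x + y) ^ (-(1 / 2) : ℝ)) =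
      ENNReal.ofReal (4 - 2 * √2 * Real.arsinh 1) := by
    rw [← outer]
    refine lintegral_congr_ae ?_
    have hne : ∀ᵐ x ∂mu, x ≠ 1 := by
      refine ae_restrict_of_ae ?_
      exact (Set.countable_singleton (1:ℝ)).ae_notMem volume |>.mono fun x hx => by simpa using hx
    filter_upwards [hpos, hne] with x hx hx1
    rw [ENNReal.ofReal_mul (htf x hx), ← inner hx hx1,
      ← lintegral_const_mul' _ _ ENNReal.ofReal_ne_top]
    refine lintegral_congr_ae ?_
    filter_upwards [hpos] with y hy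
    rw [ENNReal.ofReal_mul (htf y hy), ← mul_assoc]
    rfl
  rw [h2] at h1
  have h3 : 0 < 4 - 2 * √2 * Real.arsinh 1 := by
    have h4 : √2 < 3 / 2 := by
      rw [Real.sqrt_lt' (by norm_num)]; norm_num
    have h5 : Real.arsinh 1 ≤ 1 := by
      have := Real.self_le_sinh_iff.2 (show (0:ℝ) ≤ 1 by norm_num)
      calc Real.arsinh 1 ≤ Real.arsinh (Real.sinh 1) := Real.arsinh_le_arsinh.2 this
        _ = 1 := Real.arsinh_sinh 1
    have h6 : 0 ≤ Real.arsinh 1 := Real.arsinh_nonneg_iff.2 (by norm_num)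
    have h7 : 0 < √2 := by positivity
    nlinarith
  by_contra hcon
  push Not at hcon
  exact absurd h1 (not_le.2 ((ENNReal.ofReal_lt_ofReal_iff h3).2 hcon))

/-- **The constant `√π` is not sharp in the inequalities (S) and (I).** -/
theorem result :
    (∀ C : ℝ, SeriesBound C ↔ IntegralBound C) ∧
    SeriesBound (√(15 * Real.pi) / 4) ∧ IntegralBound (√(15 * Real.pi) / 4) ∧
    √(15 * Real.pi) / 4 < √Real.pi ∧
    (∀ C : ℝ, IntegralBound C → 4 - 2 * √2 * Real.arsinh 1 ≤ C) ∧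
    ∀ CS CI : ℝ, IsLeast {C : ℝ | SeriesBound C} CS → IsLeast {C : ℝ | IntegralBound C} CI →
      CS = CI ∧ 4 - 2 * √2 * Real.arsinh 1 ≤ CI ∧ CI ≤ √(15 * Real.pi) / 4 := by
  have hI : IntegralBound (√(15 * Real.pi) / 4) := fun f g hf hg hF hG => ineqI hf hg hF hG
  have hS : SeriesBound (√(15 * Real.pi) / 4) := series_of_integral hI
  have hlt : √(15 * Real.pi) / 4 < √Real.pi := by
    have h1 : √(15 * Real.pi) < √(16 * Real.pi) := by
      apply Real.sqrt_lt_sqrt (by positivity)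
      nlinarith [Real.pi_pos]
    have h2 : √(16 * Real.pi) = 4 * √Real.pi := by
      rw [Real.sqrt_mul (by norm_num), show (16 : ℝ) = 4 ^ 2 by norm_num, Real.sqrt_sq (by norm_num)]
    rw [h2] at h1
    linarith
  exact ⟨fun C => ⟨integral_of_series', series_of_integral⟩, hS, hI, hlt, fun C hC => lower hC,
    fun CS CI h1 h2 => ⟨le_antisymm (h1.2 (series_of_integral h2.1)) (h2.2 (integral_of_series' h1.1)),
      lower h2.1, h2.2 hI⟩⟩

end Pool.Agent.Results.MP_dbfb19_an.NotSharp
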